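import Pool.Agent.H33.G.REP
import Pool.Agent.H19.LS.PLE

/-!
Row GL2 of the board g_modules: the energy of the wave.
-/

set_option autoImplicit false

namespace Pool.Agent.H48.G

open MeasureTheory Set FourierTransform
open scoped ENNReal NNReal RealInnerProductSpace
open Pool.Agent.H83.LS Pool.Agent.H81.GT Pool.Agent.H19.LS
open Pool.Agent.H83.G (Z TF Rg Cls pl Lo Bp TP)

/-- energy of a bounded function with bounded support -/
private theorem l2_fin {d : ℕ} {A : ℝ} {f : EE d → ℂ} (hf : BCd A f) : ∫⁻ x, ‖f x‖ₑ ^ 2 ≠ ⊤ := by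
  obtain ⟨hm, hA, R, hR⟩ := hf
  have h1 : ∫⁻ x, ‖f x‖ₑ ^ 2 ≤
      ∫⁻ x in Metric.closedBall (0 : EE d) R, ENNReal.ofReal A ^ 2 := by
    rw [← lintegral_indicator Metric.isClosed_closedBall.measurableSet]
    refine lintegral_mono fun x => ?_
    by_cases hx : x ∈ Metric.closedBall (0 : EE d) R
    · rw [indicator_of_mem hx]
      refine pow_le_pow_left' ?_ 2
      rw [← ofReal_norm]
      exact ENNReal.ofReal_le_ofReal (hA x)
    · rw [indicator_of_notMem hx]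
      have : f x = 0 := hR x (by
        rw [mem_closedBall_zero_iff] at hx
        exact not_le.1 hx)
      rw [this]
      simp
  refine ne_top_of_le_ne_top ?_ h1
  rw [setLIntegral_const]
  exact ENNReal.mul_ne_top (ENNReal.pow_ne_top ENNReal.ofReal_ne_top)
    (isCompact_closedBall _ _).measure_lt_top.ne

/-- scaling and translation of the time integral -/
private theorem lint_time (X : ℝ → ℂ) (hX : Continuous X) {R : ℝ} (hR : 0 < R) (ρ : ℝ) :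
    ∫⁻ τ : ℝ, ‖X (R * (τ - ρ))‖ₑ ^ 2 = ENNReal.ofReal R⁻¹ * ∫⁻ σ : ℝ, ‖X σ‖ₑ ^ 2 := by
  have hm : Measurable fun σ : ℝ => ‖X σ‖ₑ ^ 2 := hX.measurable.enorm.pow_const 2
  rw [lintegral_sub_right_eq_self (fun τ : ℝ => ‖X (R * τ)‖ₑ ^ 2) ρ]
  have h1 : ∫⁻ u : ℝ, ‖X u‖ₑ ^ 2 ∂(Measure.map (R * ·) volume) = ∫⁻ u : ℝ, ‖X (R * u)‖ₑ ^ 2 :=
    lintegral_map hm (measurable_const_mul R)
  rw [Real.map_volume_mul_left hR.ne', lintegral_smul_measure, abs_of_pos (inv_pos.2 hR)] at h1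
  rw [← h1]
  rfl

theorem pf_GL2 (hCOV : T_COV) : T_GL2 := by
  intro n κ a X χ hκ ha hX
  have hXc : Continuous X := hX.1.continuous
  have hXcs : HasCompactSupport X := by
    refine HasCompactSupport.of_support_subset_isCompact
      (isCompact_closedBall (0 : ℝ) (1 / 1000)) ?_
    intro σ hσ
    rw [mem_closedBall_zero_iff]
    exact hX.2.1 σ hσ
  have hac : Continuous a := ha.1.continuous
  obtain ⟨A₀, hA₀⟩ := ha.cs.exists_bound_of_continuous hac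
  have hIX : ∫⁻ σ : ℝ, ‖X σ‖ₑ ^ 2 ≠ ⊤ := by
    have h1 : MemLp X 2 volume := hXc.memLp_of_hasCompactSupport hXcs
    have h2 := h1.eLpNorm_lt_top
    rw [eLpNorm_lt_top_iff_lintegral_rpow_enorm_lt_top (by norm_num) (by norm_num)] at h2
    simpa using h2.ne
  obtain ⟨I, hI⟩ : ∃ I : ℝ, I = (∫⁻ σ : ℝ, ‖X σ‖ₑ ^ 2).toReal := ⟨_, rfl⟩
  have hI0 : 0 ≤ I := by rw [hI]; exact ENNReal.toReal_nonneg
  have hII : ∫⁻ σ : ℝ, ‖X σ‖ₑ ^ 2 = ENNReal.ofReal I := by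
    rw [hI, ENNReal.ofReal_toReal hIX]
  refine ⟨A₀ ^ 2 * I + 1, by positivity, ?_⟩
  intro R A f hR hf
  have hR0 : 0 < R := by linarith
  have hsm : ContDiff ℝ (⊤ : ℕ∞) (Gf X R a f : Z n → ℂ) := Pool.Agent.H33.G.Gf_smooth ha hX hf
  have hint : Integrable f := BCd_int A f hf
  have hfin := l2_fin hf
  have hpl : ∫⁻ ξ, ‖𝓕 f ξ‖ₑ ^ 2 = ∫⁻ y, ‖f y‖ₑ ^ 2 :=
    plancherelE f hint (memLp_two_of f hf.1.aestronglyMeasurable hfin)
  have hFc : Continuous (𝓕 f) := fourier_cont f hint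
  have hGm : Measurable fun ζ : Z n => ‖Gf X R a f ζ‖ₑ ^ 2 :=
    hsm.continuous.measurable.enorm.pow_const 2
  -- the change of variables
  have hkey : ∫⁻ ζ : Z n, ‖Gf X R a f ζ‖ₑ ^ 2 ≤
      ENNReal.ofReal ((A₀ ^ 2 * I + 1) * R) * ∫⁻ x, ‖f x‖ₑ ^ 2 := by
    rw [(hCOV n).2.2.2.2 _ hGm]
    have hin : ∀ ξ : EE (n + 1), ∫⁻ τ : ℝ,
        ‖Gf X R a f (τ + ξ (Fin.last n), pr ξ, τ - ξ (Fin.last n))‖ₑ ^ 2 ≤
        ENNReal.ofReal (R / 4 * (A₀ ^ 2 * I)) * ‖𝓕 f ξ‖ₑ ^ 2 := by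
      intro ξ
      have h1 : ∀ τ : ℝ, ‖Gf X R a f (τ + ξ (Fin.last n), pr ξ, τ - ξ (Fin.last n))‖ₑ ^ 2 =
          (‖((R / 2 : ℝ) : ℂ)‖ₑ ^ 2 * ‖a ξ‖ₑ ^ 2 * ‖𝓕 f ξ‖ₑ ^ 2) *
            ‖X (R * (τ - ‖ξ‖))‖ₑ ^ 2 := by
        intro τ
        have e1 : (fz (τ + ξ (Fin.last n), pr ξ, τ - ξ (Fin.last n)) : EE (n + 1)) = ξ := by
          unfold fz
          simp only
          rw [show (τ + ξ (Fin.last n) - (τ - ξ (Fin.last n))) / 2 = ξ (Fin.last n) by ring,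
            Pool.Agent.H33.G.jo_pr]
        unfold Gf
        rw [e1]
        simp only
        rw [show (τ + ξ (Fin.last n) + (τ - ξ (Fin.last n))) / 2 = τ by ring, enorm_mul,
          enorm_mul, enorm_mul]
        ring
      have h2 : ‖a ξ‖ₑ ^ 2 ≤ ENNReal.ofReal (A₀ ^ 2) := by
        rw [← ofReal_norm, ← ENNReal.ofReal_pow (norm_nonneg _)]
        refine ENNReal.ofReal_le_ofReal ?_
        exact pow_le_pow_left₀ (norm_nonneg _) (hA₀ ξ) 2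
      have h3 : ‖((R / 2 : ℝ) : ℂ)‖ₑ ^ 2 = ENNReal.ofReal ((R / 2) ^ 2) := by
        rw [← ofReal_norm, Complex.norm_real, Real.norm_of_nonneg (by positivity),
          ENNReal.ofReal_pow (by positivity)]
      have h4 : Measurable fun τ : ℝ => ‖X (R * (τ - ‖ξ‖))‖ₑ ^ 2 := by
        have h5 : Continuous fun τ : ℝ => X (R * (τ - ‖ξ‖)) := hXc.comp (by fun_prop)
        exact h5.measurable.enorm.pow_const 2
      rw [lintegral_congr h1, lintegral_const_mul _ h4, lint_time X hXc hR0, hII, h3]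
      calc ENNReal.ofReal ((R / 2) ^ 2) * ‖a ξ‖ₑ ^ 2 * ‖𝓕 f ξ‖ₑ ^ 2 *
            (ENNReal.ofReal R⁻¹ * ENNReal.ofReal I)
          ≤ ENNReal.ofReal ((R / 2) ^ 2) * ENNReal.ofReal (A₀ ^ 2) * ‖𝓕 f ξ‖ₑ ^ 2 *
            (ENNReal.ofReal R⁻¹ * ENNReal.ofReal I) := by gcongr
        _ = ENNReal.ofReal (R / 4 * (A₀ ^ 2 * I)) * ‖𝓕 f ξ‖ₑ ^ 2 := by
            have e2 : R / 4 * (A₀ ^ 2 * I) = (R / 2) ^ 2 * A₀ ^ 2 * (R⁻¹ * I) := by
              field_simp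
              ring
            rw [e2, ENNReal.ofReal_mul (by positivity), ENNReal.ofReal_mul (by positivity),
              ENNReal.ofReal_mul (p := R⁻¹) (by positivity)]
            ring
    calc 2 * ∫⁻ ξ : EE (n + 1), ∫⁻ τ : ℝ,
          ‖Gf X R a f (τ + ξ (Fin.last n), pr ξ, τ - ξ (Fin.last n))‖ₑ ^ 2
        ≤ 2 * ∫⁻ ξ : EE (n + 1), ENNReal.ofReal (R / 4 * (A₀ ^ 2 * I)) * ‖𝓕 f ξ‖ₑ ^ 2 :=
          mul_le_mul_right (lintegral_mono hin) _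
      _ = ENNReal.ofReal 2 * ENNReal.ofReal (R / 4 * (A₀ ^ 2 * I)) * ∫⁻ x, ‖f x‖ₑ ^ 2 := by
          rw [lintegral_const_mul _ (hFc.measurable.enorm.pow_const 2), hpl,
            ENNReal.ofReal_ofNat]
          ring
      _ ≤ ENNReal.ofReal ((A₀ ^ 2 * I + 1) * R) * ∫⁻ x, ‖f x‖ₑ ^ 2 := by
          rw [← ENNReal.ofReal_mul (by norm_num)]
          refine mul_le_mul_left (ENNReal.ofReal_le_ofReal ?_) _
          have : 0 ≤ A₀ ^ 2 * I := by positivity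
          nlinarith
  have hconv : ∫ ζ : Z n, ‖Gf X R a f ζ‖ ^ 2 = (∫⁻ ζ : Z n, ‖Gf X R a f ζ‖ₑ ^ 2).toReal := by
    have h6 : Continuous fun ζ : Z n => ‖Gf X R a f ζ‖ ^ 2 := hsm.continuous.norm.pow 2
    rw [integral_eq_lintegral_of_nonneg_ae (Filter.Eventually.of_forall fun ζ => by positivity)
      h6.aestronglyMeasurable]
    congr 1
    refine lintegral_congr fun ζ => ?_
    rw [← ofReal_norm, ENNReal.ofReal_pow (norm_nonneg _)]
  rw [hconv]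
  have hfin2 : ENNReal.ofReal ((A₀ ^ 2 * I + 1) * R) * ∫⁻ x, ‖f x‖ₑ ^ 2 ≠ ⊤ :=
    ENNReal.mul_ne_top ENNReal.ofReal_ne_top hfin
  refine le_trans (ENNReal.toReal_mono hfin2 hkey) (le_of_eq ?_)
  rw [ENNReal.toReal_mul, ENNReal.toReal_ofReal (by positivity)]

end Pool.Agent.H48.G
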